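import Pool.Agent.Helper53K9.AB.Joint

/-!
# The order of the determinant at a good place, with the joint truncated multiplicity
-/

set_option autoImplicit false

open MvPolynomial FF Pool.Agent.W603.LV Pool.Agent.W603.PV Pool.Agent.TH145.GH
open Pool.Agent.TH145.GC

namespace Pool.Agent.Helper53K9.AB

variable {k K : Type} [Field k] [Field K] [Algebra k K]

section

variable {n : ℕ} {A : Type} {F : A → MvPolynomial (Fin (n + 1)) K} {dg : A → ℕ}
    {D : A → (Fin (n + 1) →₀ ℕ) → Derivation ℤ K K} {e : Place k K → ℤ}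

theorem dF_sum {ι : Type} (G : MvPolynomial (Fin (n + 1)) K) (x : Fin (n + 1) → K) (s : Finset ι)
    (r : ι → K) (v : ι → Fin (n + 1) → K) :
    dF G x (∑ i ∈ s, r i • v i) = ∑ i ∈ s, r i * dF G x (v i) := by
  obtain ⟨φ, hφ⟩ : ∃ φ : (Fin (n + 1) → K) →ₗ[K] K, ∀ z, φ z = dF G x z :=
    ⟨{ toFun := fun z => dF G x z
       map_add' := fun y z => dF_add _ _ _ _
       map_smul' := fun r z => dF_smul _ _ _ _ }, fun _ => rfl⟩
  rw [← hφ, map_sum]
  refine Finset.sum_congr rfl fun i _ => ?_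
  rw [map_smul, hφ, smul_eq_mul]

/-- The order of a combination of the differentials of two forms along the rows. -/
theorem ge_dF2 (hdat : Data k F dg D e) (P : Place k K) {x : Fin (n + 1) → K}
    (hx : ∀ l, Ge P 0 (x l)) {I : A → Fin (n + 1) →₀ ℕ} (hI : ∀ a, (I a).degree = dg a)
    {a a0 : A} {r : K} {ρ : ℤ} (hr : Ge P ρ (r * eval x (F a0))) (hρ : Ge P ρ (eval x (F a)))
    (hlog : ∀ c, ∀ I : Fin (n + 1) →₀ ℕ, I.degree = dg c →
      Ge P ρ (D c I (eval x (F a)) - r * D c I (eval x (F a0))))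
    (i : Option (Ti n A) ⊕ A) (hi : i ≠ Sum.inr a) (hi0 : i ≠ Sum.inr a0) :
    Ge P ρ (dF (F a) x (vv dg D x I i) - r * dF (F a0) x (vv dg D x I i)) := by
  classical
  rcases i with (_ | t) | c
  · simp only [vv, wv]
    rw [dF_self (hdat.hom a), dF_self (hdat.hom a0)]
    have h1 := (Ge.natCast (P := P) (dg a)).mul hρ
    have h2 := (Ge.natCast (P := P) (dg a0)).mul hr
    have h3 : (dg a : K) * eval x (F a) - r * (dg a0 * eval x (F a0)) =
        (dg a : K) * eval x (F a) - dg a0 * (r * eval x (F a0)) := by ring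
    rw [h3]
    exact (h1.mono (by omega)).sub (h2.mono (by omega))
  · simp only [vv, wv]
    by_cases ht : t.2.1.degree + 1 = dg t.1
    · rw [dF_tv hdat.hom hdat.dual x a t ht, dF_tv hdat.hom hdat.dual x a0 t ht]
      have h3 : x t.2.2.2 * D t.1 (t.2.1 + Finsupp.single t.2.2.1 1) (eval x (F a)) -
          x t.2.2.1 * D t.1 (t.2.1 + Finsupp.single t.2.2.2 1) (eval x (F a)) -
          r * (x t.2.2.2 * D t.1 (t.2.1 + Finsupp.single t.2.2.1 1) (eval x (F a0)) -
          x t.2.2.1 * D t.1 (t.2.1 + Finsupp.single t.2.2.2 1) (eval x (F a0))) =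
          x t.2.2.2 * (D t.1 (t.2.1 + Finsupp.single t.2.2.1 1) (eval x (F a)) -
            r * D t.1 (t.2.1 + Finsupp.single t.2.2.1 1) (eval x (F a0))) -
          x t.2.2.1 * (D t.1 (t.2.1 + Finsupp.single t.2.2.2 1) (eval x (F a)) -
            r * D t.1 (t.2.1 + Finsupp.single t.2.2.2 1) (eval x (F a0))) := by ring
      rw [h3]
      refine Ge.mono (by omega : _ ≤ 0 + ρ) (Ge.sub ?_ ?_)
      · exact (hx _).mul (hlog _ _ (by rw [map_add, Finsupp.degree_single, ht]))
      · exact (hx _).mul (hlog _ _ (by rw [map_add, Finsupp.degree_single, ht]))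
    · rw [tv, if_neg ht]
      have h1 : ∀ G : MvPolynomial (Fin (n + 1)) K, dF G x 0 = 0 := fun G => by simp [dF]
      rw [h1, h1, mul_zero, sub_zero]
      exact Ge.zero
  · simp only [vv]
    rw [dF_Ev hdat.hom hdat.dual x (hI c), dF_Ev hdat.hom hdat.dual x (hI c),
      if_neg fun h => hi (by rw [h]), if_neg fun h => hi0 (by rw [h]), sub_zero, sub_zero]
    exact hlog c _ (hI c)

variable [IsAlgClosed k] [CharZero k] [IsFF k K]

open scoped Classical in
/-- The order of the determinant at a good place, with the joint truncated multiplicity. -/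
theorem ord_det2 (hdat : Data k F dg D e) [Fintype A] (P : Place k K) (he0 : e P = 0)
    {x : Fin (n + 1) → K}
    (hx : ∀ l, Ge P 0 (x l)) {e1 : Fin (n + 1)} (he1 : x e1 = 1)
    {b : Finset (Option (Ti n A) ⊕ A)} (σ : b → Fin (n + 1))
    (hcard : Module.finrank K (Full dg D x) = b.card)
    (hdet : (mx dg D x (fun a => Finsupp.single e1 (dg a)) b σ).det ≠ 0)
    (hG : ∀ a, Sum.inr a ∉ b → eval x (F a) ≠ 0)
    (hμ : ∀ a, Sum.inr a ∉ b → 0 ≤ P.ord (eval x (F a))) :
    (∑ a ∈ Finset.univ.filter (fun a => Sum.inr a ∉ b), P.ord (eval x (F a))) -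
      (if ∃ a, Sum.inr a ∉ b ∧ 0 < P.ord (eval x (F a)) then 1 else 0) ≤
      P.ord (mx dg D x (fun a => Finsupp.single e1 (dg a)) b σ).det := by
  have hdeg : ∀ a, (Finsupp.single e1 (dg a)).degree = dg a := fun a => Finsupp.degree_single _ _
  by_cases hex : ∃ a, Sum.inr a ∉ b ∧ 0 < P.ord (eval x (F a))
  swap
  · rw [if_neg hex, sub_zero]
    push Not at hex
    have h1 := (Pool.Agent.TH145.GC.ge_det P (mx dg D x (fun a => Finsupp.single e1 (dg a)) b σ)
      (c := e P) fun i j => hdat.ge_vv P hx hdeg _ _).resolve_left hdet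
    rw [he0, mul_zero, neg_zero] at h1
    exact (Finset.sum_nonpos fun a ha => hex a (Finset.mem_filter.1 ha).2).trans h1
  rw [if_pos hex]
  obtain ⟨B', hB'⟩ : ∃ B' : Finset A, B' = Finset.univ.filter fun a => Sum.inr a ∉ b ∧
      0 < P.ord (eval x (F a)) := ⟨_, rfl⟩
  have hm : ∀ a ∈ B', Sum.inr a ∉ b ∧ 0 < P.ord (eval x (F a)) := fun a ha => by
    rw [hB', Finset.mem_filter] at ha
    exact ha.2
  obtain ⟨a0, ha0, hmin⟩ := Finset.exists_min_image B' (fun a => P.ord (eval x (F a))) (by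
    obtain ⟨a, ha⟩ := hex
    exact ⟨a, by rw [hB', Finset.mem_filter]; exact ⟨Finset.mem_univ _, ha⟩⟩)
  -- the multipliers
  have hr : ∀ a ∈ B', ∃ r : K, Ge P (P.ord (eval x (F a)) - P.ord (eval x (F a0))) r ∧
      ∀ D' : Derivation ℤ K K, (∀ u, Ge P 0 u → Ge P 0 (D' u)) →
        Ge P (P.ord (eval x (F a))) (D' (eval x (F a)) - r * D' (eval x (F a0))) :=
    fun a ha => joint P (hG a (hm a ha).1) (by have := (hm a0 ha0).2; omega) (hmin a ha)
  choose! r hr1 hr2 using hr
  have hloss : ∀ c, ∀ I : Fin (n + 1) →₀ ℕ, I.degree = dg c → ∀ u, Ge P 0 u →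
      Ge P 0 (D c I u) := fun c I hI u hu => by
    have := hdat.loss P u hu c I hI
    rwa [he0, neg_zero] at this
  have hr3 : ∀ a ∈ B', ∀ c, ∀ I : Fin (n + 1) →₀ ℕ, I.degree = dg c →
      Ge P (P.ord (eval x (F a))) (D c I (eval x (F a)) - r a * D c I (eval x (F a0))) :=
    fun a ha c I hI => hr2 a ha _ (hloss c I hI)
  have hr0 : ∀ a ∈ B', Ge P 0 (r a) := fun a ha => (hr1 a ha).mono (by
    have := hmin a ha
    omega)
  have hl0 : ∀ c, ∀ I : Fin (n + 1) →₀ ℕ, I.degree = dg c →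
      Ge P (P.ord (eval x (F a0)) - 1) (D c I (eval x (F a0))) := fun c I hI =>
    (loss_all P (e := 0) (fun f hf => by
      rw [neg_zero]; exact hloss c I hI f hf) (hG a0 (hm a0 ha0).1)).mono (by omega)
  obtain ⟨y, hy⟩ : ∃ y : A → b → K, ∀ a, ∀ z ∈ Full dg D x,
      ∑ j, y a j * z (σ j) = dF (F a) x z := by
    choose y hy using fun a => exists_coord hdeg σ hcard hdet (F a)
    exact ⟨y, hy⟩
  -- the functionals and the transversal vectors
  obtain ⟨y', hy'⟩ : ∃ y' : A → b → K, ∀ a j, y' a j = if a = a0 then y a0 j else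
    y a j - r a * y a0 j := ⟨_, fun _ _ => rfl⟩
  obtain ⟨E, hE⟩ : ∃ E : A → Fin (n + 1) → K, ∀ a, E a = Ev D x a (Finsupp.single e1 (dg a)) :=
    ⟨_, fun _ => rfl⟩
  obtain ⟨u, hu⟩ : ∃ u : A → Fin (n + 1) → K, ∀ a, u a = if a = a0 then E a0 +
    ∑ c ∈ B'.erase a0, r c • E c else E a := ⟨_, fun _ => rfl⟩
  have hEm : ∀ a, E a ∈ Full dg D x := fun a => by rw [hE]; exact Ev_mem_full x (hdeg a)
  have hum : ∀ a, u a ∈ Full dg D x := by
    intro a
    rw [hu]
    split_ifs
    · exact add_mem (hEm _) (Submodule.sum_mem _ fun c _ => Submodule.smul_mem _ _ (hEm c))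
    · exact hEm a
  have hval : ∀ a, ∀ z ∈ Full dg D x, ∑ j, y' a j * z (σ j) =
      if a = a0 then dF (F a0) x z else dF (F a) x z - r a * dF (F a0) x z := by
    intro a z hz
    split_ifs with ha
    · rw [← hy a0 z hz]
      refine Finset.sum_congr rfl fun j _ => ?_
      rw [hy', if_pos ha]
    · rw [← hy a0 z hz, ← hy a z hz, Finset.mul_sum, ← Finset.sum_sub_distrib]
      refine Finset.sum_congr rfl fun j _ => ?_
      rw [hy', if_neg ha]
      ring
  have hmon : ∀ a, mon x (Finsupp.single e1 (dg a)) = 1 := fun a => by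
    rw [mon_single, he1, one_pow]
  have hdE : ∀ a c, dF (F a) x (E c) = D c (Finsupp.single e1 (dg c)) (eval x (F a)) -
      if c = a then 1 else 0 := by
    intro a c
    rw [hE, dF_Ev hdat.hom hdat.dual x (hdeg c), hmon]
  -- the values of the functionals
  have hv1 : ∀ a c, a ∈ B' → a ≠ a0 → c ≠ a → c ≠ a0 → Ge P (P.ord (eval x (F a)))
      (∑ j, y' a j * E c (σ j)) := by
    intro a c ha haa hca hca0
    rw [hval a _ (hEm c), if_neg haa, hdE, hdE, if_neg hca, if_neg hca0, sub_zero, sub_zero]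
    exact hr3 a ha c _ (hdeg c)
  have hv2 : ∀ a, a ∈ B' → a ≠ a0 → Ge P (P.ord (eval x (F a)))
      (∑ j, y' a j * E a (σ j) + 1) := by
    intro a ha haa
    rw [hval a _ (hEm a), if_neg haa, hdE, hdE, if_pos rfl, if_neg haa, sub_zero]
    have := hr3 a ha a _ (hdeg a)
    have h2 : D a (Finsupp.single e1 (dg a)) (eval x (F a)) - 1 -
        r a * D a (Finsupp.single e1 (dg a)) (eval x (F a0)) + 1 =
        D a (Finsupp.single e1 (dg a)) (eval x (F a)) -
        r a * D a (Finsupp.single e1 (dg a)) (eval x (F a0)) := by ring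
    rw [h2]
    exact this
  have hv3 : ∀ a, a ∈ B' → a ≠ a0 → Ge P (P.ord (eval x (F a)))
      (∑ j, y' a j * E a0 (σ j) - r a) := by
    intro a ha haa
    rw [hval a _ (hEm a0), if_neg haa, hdE, hdE, if_neg fun h => haa h.symm, if_pos rfl, sub_zero]
    have := hr3 a ha a0 _ (hdeg a0)
    have h2 : D a0 (Finsupp.single e1 (dg a0)) (eval x (F a)) -
        r a * (D a0 (Finsupp.single e1 (dg a0)) (eval x (F a0)) - 1) - r a =
        D a0 (Finsupp.single e1 (dg a0)) (eval x (F a)) -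
        r a * D a0 (Finsupp.single e1 (dg a0)) (eval x (F a0)) := by ring
    rw [h2]
    exact this
  have hv4 : ∀ c, c ≠ a0 → Ge P (P.ord (eval x (F a0)) - 1) (∑ j, y' a0 j * E c (σ j)) := by
    intro c hc
    rw [hval a0 _ (hEm c), if_pos rfl, hdE, if_neg hc, sub_zero]
    exact hl0 c _ (hdeg c)
  have hv5 : Ge P (P.ord (eval x (F a0)) - 1) (∑ j, y' a0 j * E a0 (σ j) + 1) := by
    rw [hval a0 _ (hEm a0), if_pos rfl, hdE, if_pos rfl, sub_add_cancel]
    exact hl0 a0 _ (hdeg a0)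
  have hua0 : ∀ a, ∑ j, y' a j * u a0 (σ j) = ∑ j, y' a j * E a0 (σ j) +
      ∑ c ∈ B'.erase a0, r c * ∑ j, y' a j * E c (σ j) := by
    intro a
    rw [hu, if_pos rfl]
    simp only [Pi.add_apply, Finset.sum_apply, Pi.smul_apply, smul_eq_mul, mul_add,
      Finset.sum_add_distrib, Finset.mul_sum]
    congr 1
    rw [Finset.sum_comm]
    refine Finset.sum_congr rfl fun c _ => Finset.sum_congr rfl fun j _ => by ring
  obtain ⟨B'', hB''⟩ : ∃ B'' : Finset A, B'' = B'.filter fun a => a = a0 →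
    2 ≤ P.ord (eval x (F a0)) := ⟨_, rfl⟩
  have hm2 : ∀ a ∈ B'', a ∈ B' ∧ (a = a0 → 2 ≤ P.ord (eval x (F a0))) := fun a ha => by
    rw [hB'', Finset.mem_filter] at ha
    exact ha
  obtain ⟨γ, hγ⟩ : ∃ γ : A → ℤ, ∀ a, γ a = if a = a0 then P.ord (eval x (F a0)) - 1 else
    P.ord (eval x (F a)) := ⟨_, fun _ => rfl⟩
  have hE0 : ∀ a j, Ge P 0 (E a j) := fun a j => by
    rw [hE]
    exact hloss a _ (hdeg a) _ (hx j)
  have h1 := det_est P y' (fun a j => u a (σ j)) γ 0 B''
    (fun a _ j => ?_) (fun a ha => ?_) (fun c hc a ha hac => ?_)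
    (fun i j => vv dg D x (fun a => Finsupp.single e1 (dg a)) i (σ j)) (fun i j => ?_)
    (fun a ha i => ?_)
  rotate_left
  · rw [neg_zero, hu]
    split_ifs
    · rw [Pi.add_apply, Finset.sum_apply]
      refine (hE0 _ _).add (Ge.sum _ _ fun c hc => ?_)
      rw [Pi.smul_apply, smul_eq_mul]
      exact ((hr0 c (Finset.mem_of_mem_erase hc)).mul (hE0 _ _)).mono (by omega)
    · exact hE0 _ _
  · by_cases haa : a = a0
    · subst haa
      have h2 := (hm2 a ha).2 rfl
      rw [hua0 a]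
      have h3 : Ge P 1 (∑ j, y' a j * E a (σ j) + 1 +
          ∑ c ∈ B'.erase a, r c * ∑ j, y' a j * E c (σ j)) := by
        refine (hv5.mono (by omega)).add (Ge.sum _ _ fun c hc => ?_)
        exact ((hr0 c (Finset.mem_of_mem_erase hc)).mul
          (hv4 c (Finset.ne_of_mem_erase hc))).mono (by omega)
      have h4 := sub_one_ord P h3
      have h5 : ∑ j, y' a j * E a (σ j) + 1 +
          ∑ c ∈ B'.erase a, r c * ∑ j, y' a j * E c (σ j) - 1 = ∑ j, y' a j * E a (σ j) +
          ∑ c ∈ B'.erase a, r c * ∑ j, y' a j * E c (σ j) := by ring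
      rwa [h5] at h4
    · have h2 := hv2 a (hm2 a ha).1 haa
      have h3 := sub_one_ord P (h2.mono (by have := (hm a (hm2 a ha).1).2; omega : (1 : ℤ) ≤ _))
      rw [add_sub_cancel_right] at h3
      rw [hu, if_neg haa]
      exact h3
  · rw [hγ]
    have haB := (hm2 a ha).1
    by_cases haa : a = a0
    · rw [if_pos haa]
      have hc0 : c ≠ a0 := fun h => hac (h.trans haa.symm)
      rw [hu, if_neg hc0, haa]
      exact hv4 c hc0
    · rw [if_neg haa]
      by_cases hc0 : c = a0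
      · rw [hc0, hua0 a, ← Finset.add_sum_erase _ _ (Finset.mem_erase.2 ⟨haa, haB⟩)]
        have h2 : ∑ j, y' a j * E a0 (σ j) + (r a * ∑ j, y' a j * E a (σ j) +
            ∑ c ∈ (B'.erase a0).erase a, r c * ∑ j, y' a j * E c (σ j)) =
            (∑ j, y' a j * E a0 (σ j) - r a) + (r a * (∑ j, y' a j * E a (σ j) + 1) +
            ∑ c ∈ (B'.erase a0).erase a, r c * ∑ j, y' a j * E c (σ j)) := by ring
        rw [h2]
        refine (hv3 a haB haa).add (Ge.add ?_ (Ge.sum _ _ fun c' hc' => ?_))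
        · exact ((hr0 a haB).mul (hv2 a haB haa)).mono (by omega)
        · have h3 := Finset.mem_erase.1 hc'
          have h4 := Finset.mem_erase.1 h3.2
          exact ((hr0 c' h4.2).mul (hv1 a c' haB haa h3.1 h4.1)).mono (by omega)
      · rw [hu, if_neg hc0]
        exact hv1 a c haB haa hac hc0
  · have := hdat.ge_vv P hx hdeg i (σ j)
    rwa [he0] at this
  · rw [hγ, hval a _ (vv_mem_full x hdeg i)]
    have haB := (hm2 a ha).1
    have hia0 : (i : Option (Ti n A) ⊕ A) ≠ Sum.inr a0 := fun h => (hm a0 ha0).1 (h ▸ i.2)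
    have hia : (i : Option (Ti n A) ⊕ A) ≠ Sum.inr a := fun h => (hm a haB).1 (h ▸ i.2)
    split_ifs with haa
    · refine Pool.Agent.Helper53K9.CC.ge_dF1 hdat P hx hdeg (Or.inr (by omega))
        (fun c I hI => hl0 c I hI) _ hia0
    · refine ge_dF2 hdat P hx hdeg ?_ (Or.inr le_rfl) (fun c I hI => hr3 a haB c I hI) _ hia hia0
      have h2 : Ge P (P.ord (eval x (F a0))) (eval x (F a0)) := Or.inr le_rfl
      exact ((hr1 a haB).mul h2).mono (by omega)
  have h2 : (Matrix.of fun (i j : b) => vv dg D x (fun a => Finsupp.single e1 (dg a)) i (σ j)) =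
    mx dg D x (fun a => Finsupp.single e1 (dg a)) b σ := rfl
  rw [h2] at h1
  have h3 := h1.resolve_left hdet
  rw [mul_zero, sub_zero] at h3
  refine le_trans ?_ h3
  have h4 : ∑ a ∈ Finset.univ.filter (fun a => Sum.inr a ∉ b), P.ord (eval x (F a)) =
      ∑ a ∈ B', P.ord (eval x (F a)) := by
    symm
    refine Finset.sum_subset (fun a ha => ?_) fun a ha ha' => ?_
    · exact Finset.mem_filter.2 ⟨Finset.mem_univ _, (hm a ha).1⟩
    · have h5 := (Finset.mem_filter.1 ha).2
      have h6 := hμ a h5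
      by_contra hne
      apply ha'
      rw [hB', Finset.mem_filter]
      exact ⟨Finset.mem_univ _, h5, by omega⟩
  rw [h4]
  have h5 : ∀ s : Finset A, a0 ∉ s → ∑ a ∈ s, γ a = ∑ a ∈ s, P.ord (eval x (F a)) := by
    intro s hs
    refine Finset.sum_congr rfl fun a ha => ?_
    rw [hγ, if_neg (fun h : a = a0 => hs (h ▸ ha))]
  have h6 := Finset.add_sum_erase B' (fun a => P.ord (eval x (F a))) ha0
  by_cases h7 : 2 ≤ P.ord (eval x (F a0))
  · have h8 : B'' = B' := by
      rw [hB'', Finset.filter_true_of_mem]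
      exact fun a _ _ => h7
    rw [h8, ← Finset.add_sum_erase B' γ ha0, h5 _ (Finset.notMem_erase _ _), hγ, if_pos rfl]
    linarith
  · have h8 : B'' = B'.erase a0 := by
      ext a
      rw [hB'', Finset.mem_filter, Finset.mem_erase]
      constructor
      · rintro ⟨h9, h10⟩
        exact ⟨fun h => h7 (h10 h), h9⟩
      · rintro ⟨h9, h10⟩
        exact ⟨h10, fun h => absurd h h9⟩
    rw [h8, h5 _ (Finset.notMem_erase _ _)]
    have h9 := (hm a0 ha0).2
    linarith

end

end Pool.Agent.Helper53K9.AB
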