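import Pool.Agent.Helper53K9.AB.Det

/-!
# The height inequality with the joint truncated multiplicity
-/

set_option autoImplicit false

open MvPolynomial FF Pool.Agent.W603.LV Pool.Agent.W603.PV Pool.Agent.TH145.GH
open Pool.Agent.TH145.GC

namespace Pool.Agent.Helper53K9.AB

variable {k K : Type} [Field k] [Field K] [Algebra k K]

section

variable {n : ℕ} {A : Type} {F : A → MvPolynomial (Fin (n + 1)) K} {dg : A → ℕ}
    {D : A → (Fin (n + 1) →₀ ℕ) → Derivation ℤ K K} {e : Place k K → ℤ}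

open scoped Classical in
/-- Scaling of the point at a place. -/
theorem ord_scaled (hdat : Data k F dg D e) [Fintype A] (P : Place k K)
    {x : Fin (n + 1) → K} {e0 : Fin (n + 1)} (he0 : x e0 ≠ 0)
    {b : Finset (Option (Ti n A) ⊕ A)} (hb : Sum.inl none ∈ b) (σ : b → Fin (n + 1))
    (hspan : Submodule.span K (Set.range (wv dg D x)) ≤
        Submodule.span K (wv dg D x '' {o | Sum.inl o ∈ b}))
    (hdet : (mx dg D x (fun a => Finsupp.single e0 (dg a)) b σ).det ≠ 0)
    (hG : ∀ a, Sum.inr a ∉ b → eval x (F a) ≠ 0) :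
    ∃ (lam : K) (x' : Fin (n + 1) → K) (e1 : Fin (n + 1)), lam ≠ 0 ∧ P.ord lam = pord P x ∧
      x = lam • x' ∧ (∀ l, Ge P 0 (x' l)) ∧ x' e1 = 1 ∧
      (∀ a, eval x (F a) = lam ^ dg a * eval x' (F a)) ∧
      (mx dg D x' (fun a => Finsupp.single e1 (dg a)) b σ).det ≠ 0 ∧
      (mx dg D x (fun a => Finsupp.single e0 (dg a)) b σ).det /
        (∏ a, if Sum.inr a ∈ b then x e0 ^ dg a else eval x (F a)) ≠ 0 ∧
      P.ord ((mx dg D x (fun a => Finsupp.single e0 (dg a)) b σ).det /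
        (∏ a, if Sum.inr a ∈ b then x e0 ^ dg a else eval x (F a))) =
      ((∑ i ∈ b, rd i : ℕ) - (∑ a, dg a : ℕ)) * pord P x +
      P.ord (mx dg D x' (fun a => Finsupp.single e1 (dg a)) b σ).det -
      ∑ a ∈ Finset.univ.filter (fun a => Sum.inr a ∉ b), P.ord (eval x' (F a)) := by
  have hx0 : x ≠ 0 := by
    rintro rfl
    exact he0 rfl
  obtain ⟨lam, x', hlam, hlamP, hxx, hx', e1, he1⟩ := exists_scaled P hx0
  have hdeg : ∀ a, (Finsupp.single e1 (dg a)).degree = dg a := fun a => Finsupp.degree_single _ _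
  have hG1 : ∀ a, eval x (F a) = lam ^ dg a * eval x' (F a) := fun a => by
    rw [hxx, eval_smul_hom (hdat.hom a)]
  have hG' : ∀ a, Sum.inr a ∉ b → eval x' (F a) ≠ 0 := fun a ha h0 => by
    apply hG a ha
    rw [hG1, h0, mul_zero]
  obtain ⟨dx, hdx⟩ : ∃ dx, dx = (mx dg D x (fun a => Finsupp.single e0 (dg a)) b σ).det :=
    ⟨_, rfl⟩
  obtain ⟨dx', hdx'⟩ : ∃ dx', dx' = (mx dg D x' (fun a => Finsupp.single e1 (dg a)) b σ).det :=
    ⟨_, rfl⟩
  have h1 := det_change he0 σ hspan (fun a => Finsupp.single e1 (dg a)) hdeg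
  have h2 := det_lam (dg := dg) (D := D) (x := x') lam hb σ (fun a => Finsupp.single e1 (dg a))
  rw [← hxx, ← hdx'] at h2
  rw [← hdx, h2] at h1
  have hmon : ∀ a, mon x (Finsupp.single e1 (dg a)) = lam ^ dg a := fun a => by
    rw [mon_single, hxx, Pi.smul_apply, he1, smul_eq_mul, mul_one]
  simp only [hmon] at h1
  rw [← hdx] at hdet
  obtain ⟨Z, hZ⟩ : ∃ Z, Z = ∏ a, if Sum.inr a ∈ b then x e0 ^ dg a else eval x (F a) := ⟨_, rfl⟩
  have hZ0 : Z ≠ 0 := by
    rw [hZ]
    refine Finset.prod_ne_zero_iff.2 fun a _ => ?_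
    split_ifs with ha
    · exact pow_ne_zero _ he0
    · exact hG a ha
  obtain ⟨Y, hY⟩ : ∃ Y, Y = ∏ a ∈ Finset.univ.filter (fun a => Sum.inr a ∉ b), eval x' (F a) :=
    ⟨_, rfl⟩
  have hY0 : Y ≠ 0 := by
    rw [hY]
    exact Finset.prod_ne_zero_iff.2 fun a ha => hG' a (Finset.mem_filter.1 ha).2
  have h3 : (∏ a, if Sum.inr a ∈ b then lam ^ dg a / x e0 ^ dg a else 1) * Z =
      lam ^ (∑ a, dg a) * Y := by
    rw [hZ, hY, ← Finset.prod_pow_eq_pow_sum, Finset.prod_filter, ← Finset.prod_mul_distrib,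
      ← Finset.prod_mul_distrib]
    refine Finset.prod_congr rfl fun a _ => ?_
    by_cases ha : Sum.inr a ∈ b
    · simp only [ha, if_true, not_true_eq_false, if_false, mul_one]
      rw [div_mul_cancel₀ _ (pow_ne_zero _ he0)]
    · simp only [ha, if_false, not_false_eq_true, if_true, one_mul]
      exact hG1 a
  have h4 : lam ^ (∑ i ∈ b, rd i) * dx' = dx / Z * (lam ^ (∑ a, dg a) * Y) := by
    rw [h1, ← h3]
    field_simp
  have hlp : ∀ m : ℕ, lam ^ m ≠ 0 := fun m => pow_ne_zero _ hlam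
  have hq0 : dx / Z ≠ 0 := div_ne_zero hdet hZ0
  have hdx'0 : dx' ≠ 0 := by
    intro h0
    rw [h0, mul_zero] at h4
    exact mul_ne_zero hq0 (mul_ne_zero (hlp _) hY0) h4.symm
  have h5 := congrArg P.ord h4
  rw [P.ord_mul (hlp _) hdx'0, P.ord_mul hq0 (mul_ne_zero (hlp _) hY0),
    P.ord_mul (hlp _) hY0, P.ord_pow, P.ord_pow, hlamP] at h5
  have h6 : P.ord Y = ∑ a ∈ Finset.univ.filter (fun a => Sum.inr a ∉ b),
      P.ord (eval x' (F a)) := by
    rw [hY]
    exact ord_prod P _ _ fun a ha => hG' a (Finset.mem_filter.1 ha).2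
  refine ⟨lam, x', e1, hlam, hlamP, hxx, hx', he1, hG1, by rw [← hdx']; exact hdx'0, ?_, ?_⟩
  · rw [← hdx, ← hZ]
    exact hq0
  · rw [← hdx, ← hZ, ← hdx', ← h6]
    linarith

variable [IsAlgClosed k] [CharZero k] [IsFF k K]

open scoped Classical in
/-- The local inequality. -/
theorem local_est2 (hdat : Data k F dg D e) [Fintype A] (P : Place k K)
    (hco : ∀ a u, Ge P (-e P) ((F a).coeff u))
    {x : Fin (n + 1) → K} {e0 : Fin (n + 1)} (he0 : x e0 ≠ 0)
    {b : Finset (Option (Ti n A) ⊕ A)} (hb : Sum.inl none ∈ b) (σ : b → Fin (n + 1))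
    (hspan : Submodule.span K (Set.range (wv dg D x)) ≤
        Submodule.span K (wv dg D x '' {o | Sum.inl o ∈ b}))
    (hcard : Module.finrank K (Full dg D x) = b.card)
    (hdet : (mx dg D x (fun a => Finsupp.single e0 (dg a)) b σ).det ≠ 0)
    {C : Finset A} (hbC : ∀ a ∈ C, Sum.inr a ∈ b) (hCn : ∀ a, a ∉ C → eval x (F a) ≠ 0)
    {W : A → ℕ} (hW : ∀ a, W a ≤ 2)
    (hpat : (∀ a, a ∉ C → 0 ≤ P.ord (eval x (F a)) - dg a * pord P x) →
      (∃ a, a ∉ C ∧ 0 < P.ord (eval x (F a)) - dg a * pord P x) →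
      2 ≤ ∑ a ∈ Finset.univ.filter (fun a => a ∉ C),
        (W a : ℤ) * (P.ord (eval x (F a)) - dg a * pord P x)) :
    (2 * ((∑ i ∈ b, rd i : ℕ) - (∑ a, dg a : ℕ)) +
      (∑ a ∈ Finset.univ.filter (fun a => a ∉ C), W a * dg a : ℕ)) * pord P x -
      (2 * (n + 1 + 3 * Fintype.card A)) * e P ≤
      P.ord (((mx dg D x (fun a => Finsupp.single e0 (dg a)) b σ).det /
        (∏ a, if Sum.inr a ∈ b then x e0 ^ dg a else eval x (F a))) ^ 2 *
        ∏ a ∈ Finset.univ.filter (fun a => a ∉ C), eval x (F a) ^ W a) := by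
  have he := hdat.e_nonneg P
  have hG : ∀ a, Sum.inr a ∉ b → a ∉ C := fun a ha hac => ha (hbC a hac)
  obtain ⟨lam, x', e1, hlam, hlamP, hxx, hx', he1, hG1, hdet', hq0, hord⟩ :=
    ord_scaled hdat P he0 hb σ hspan hdet fun a ha => hCn a (hG a ha)
  have hlp : ∀ m : ℕ, lam ^ m ≠ 0 := fun m => pow_ne_zero _ hlam
  have hCn' : ∀ a, a ∉ C → eval x' (F a) ≠ 0 := fun a ha h0 => by
    apply hCn a ha
    rw [hG1, h0, mul_zero]
  have hμ : ∀ a, a ∉ C → P.ord (eval x (F a)) - dg a * pord P x = P.ord (eval x' (F a)) := by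
    intro a ha
    rw [hG1, P.ord_mul (hlp _) (hCn' a ha), P.ord_pow, hlamP]
    ring
  have hμe : ∀ a, a ∉ C → -e P ≤ P.ord (eval x' (F a)) := fun a ha =>
    (ge_eval P hx' (hco a)).resolve_left (hCn' a ha)
  obtain ⟨δ, hδ⟩ : ∃ δ, δ = (mx dg D x' (fun a => Finsupp.single e1 (dg a)) b σ).det := ⟨_, rfl⟩
  obtain ⟨Sb, hSb⟩ : ∃ Sb, Sb = ∑ a ∈ Finset.univ.filter (fun a => Sum.inr a ∉ b),
    P.ord (eval x' (F a)) := ⟨_, rfl⟩
  obtain ⟨SW, hSW⟩ : ∃ SW, SW = ∑ a ∈ Finset.univ.filter (fun a => a ∉ C),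
        (W a : ℤ) * P.ord (eval x' (F a)) := ⟨_, rfl⟩
  have hpat' : (∀ a, a ∉ C → 0 ≤ P.ord (eval x' (F a))) →
      (∃ a, a ∉ C ∧ 0 < P.ord (eval x' (F a))) → 2 ≤ SW := by
    intro h1 h2
    have h3 := hpat (fun a ha => by rw [hμ a ha]; exact h1 a ha) (by
      obtain ⟨a, ha, h⟩ := h2
      exact ⟨a, ha, by rw [hμ a ha]; exact h⟩)
    refine h3.trans (le_of_eq ?_)
    rw [hSW]
    refine Finset.sum_congr rfl fun a ha => ?_
    rw [hμ a (Finset.mem_filter.1 ha).2]
  -- the main estimate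
  have hmain : -(2 * (n + 1 + 3 * Fintype.card A)) * e P ≤ 2 * (P.ord δ - Sb) + SW := by
    by_cases hz : e P = 0
    · have h0 : ∀ a, a ∉ C → 0 ≤ P.ord (eval x' (F a)) := fun a ha => by
        have := hμe a ha
        rw [hz] at this
        omega
      have h1 := ord_det2 hdat P hz hx' he1 σ (by
        rw [← hcard, hxx, full_scale_eq x' hlam]) hdet' (fun a ha => hCn' a (hG a ha))
        (fun a ha => h0 a (hG a ha))
      rw [← hδ, ← hSb] at h1
      rw [hz, mul_zero]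
      have hSW0 : 0 ≤ SW := by
        rw [hSW]
        refine Finset.sum_nonneg fun a ha => mul_nonneg (by positivity) ?_
        exact h0 a (Finset.mem_filter.1 ha).2
      split_ifs at h1 with hex
      · obtain ⟨a, ha, hpos⟩ := hex
        have := hpat' h0 ⟨a, hG a ha, hpos⟩
        omega
      · omega
    · have h1 := Pool.Agent.Helper53K9.CC.ord_det1 hdat P hx' he1 σ (by
        rw [← hcard, hxx, full_scale_eq x' hlam]) hdet' (fun a ha => hCn' a (hG a ha))
      rw [← hδ, Finset.sum_sub_distrib, ← hSb] at h1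
      have he1' : 1 ≤ e P := by omega
      have h2 : ∑ a ∈ Finset.univ.filter (fun a => Sum.inr a ∉ b),
          (if 0 < P.ord (eval x' (F a)) then (1 : ℤ) else 0) ≤ Fintype.card A * e P := by
        have h3 : ∑ a ∈ Finset.univ.filter (fun a => Sum.inr a ∉ b),
          (if 0 < P.ord (eval x' (F a)) then (1 : ℤ) else 0) ≤
          ∑ a ∈ Finset.univ.filter (fun a => (Sum.inr a : Option (Ti n A) ⊕ A) ∉ b), (1 : ℤ) :=
          Finset.sum_le_sum fun a _ => by split_ifs <;> omega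
        refine h3.trans ?_
        rw [Finset.sum_const, nsmul_eq_mul, mul_one]
        have h4 : ((Finset.univ.filter fun a => (Sum.inr a : Option (Ti n A) ⊕ A) ∉ b).card : ℤ) ≤
            Fintype.card A := by exact_mod_cast Finset.card_le_univ _
        have h5 : (0 : ℤ) ≤ Fintype.card A := by positivity
        nlinarith
      have h3 : -(2 * Fintype.card A * e P) ≤ SW := by
        rw [hSW]
        have h4 : ∑ a ∈ Finset.univ.filter (fun a => a ∉ C), (-(2 * e P)) ≤
            ∑ a ∈ Finset.univ.filter (fun a => a ∉ C), (W a : ℤ) * P.ord (eval x' (F a)) := by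
          refine Finset.sum_le_sum fun a ha => ?_
          have h5 := hμe a (Finset.mem_filter.1 ha).2
          have h6 : (W a : ℤ) ≤ 2 := by exact_mod_cast hW a
          have h7 : (0 : ℤ) ≤ W a := by positivity
          nlinarith
        refine le_trans ?_ h4
        rw [Finset.sum_const, nsmul_eq_mul]
        have h5 : ((Finset.univ.filter fun a => a ∉ C).card : ℤ) ≤
            Fintype.card A := by exact_mod_cast Finset.card_le_univ _
        nlinarith
      linarith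
  rw [P.ord_mul (pow_ne_zero _ hq0) (Finset.prod_ne_zero_iff.2 fun a ha =>
    pow_ne_zero _ (hCn a (Finset.mem_filter.1 ha).2)), P.ord_pow, hord, ← hδ, ← hSb,
    ord_prod P _ _ fun a ha => pow_ne_zero _ (hCn a (Finset.mem_filter.1 ha).2)]
  have h4 : ∑ a ∈ Finset.univ.filter (fun a => a ∉ C), P.ord (eval x (F a) ^ W a) =
      SW + (∑ a ∈ Finset.univ.filter (fun a => a ∉ C), W a * dg a : ℕ) * pord P x := by
    rw [hSW]
    push_cast
    rw [Finset.sum_mul, ← Finset.sum_add_distrib]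
    refine Finset.sum_congr rfl fun a ha => ?_
    rw [P.ord_pow, ← hμ a (Finset.mem_filter.1 ha).2]
    ring
  rw [h4]
  push_cast at hmain ⊢
  linarith

open scoped Classical in
/-- The height inequality. -/
theorem ineq2 (hdat : Data k F dg D e) [Fintype A] {m : ℕ} {C : Finset A}
    (hco : ∀ P a u, Ge P (-e P) ((F a).coeff u)) {W : A → ℕ} (hW : ∀ a, W a ≤ 2)
    (hdim : 4 * m + 3 + ∑ a ∈ Finset.univ.filter (fun a => a ∉ C), W a * dg a ≤
      2 * (∑ a, dg a + C.card))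
    {x : Fin (n + 1) → K} (hx0 : x ≠ 0)
    (hrk : Module.finrank K (Full dg D x) ≤ m + 1)
    (hC : ∀ a ∈ C, eval x (F a) = 0) (hCn : ∀ a, a ∉ C → eval x (F a) ≠ 0)
    (hpat : ∀ P : Place k K, (∀ a, a ∉ C → 0 ≤ P.ord (eval x (F a)) - dg a * pord P x) →
      (∃ a, a ∉ C ∧ 0 < P.ord (eval x (F a)) - dg a * pord P x) →
      2 ≤ ∑ a ∈ Finset.univ.filter (fun a => a ∉ C),
        (W a : ℤ) * (P.ord (eval x (F a)) - dg a * pord P x)) :
    pht k x ≤ ∑ᶠ P, (2 * (n + 1 + 3 * Fintype.card A)) * e P := by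
  classical
  obtain ⟨e0, he0⟩ := Function.ne_iff.1 hx0
  obtain ⟨b, hb0, hbC, hbi, hspan, hcard⟩ := exists_rows hdat.hom hdat.dual he0 hC
  obtain ⟨σ, hσ⟩ := exists_minor _ hbi
  have hdet : (mx dg D x (fun a => Finsupp.single e0 (dg a)) b σ).det ≠ 0 := by
    unfold mx
    convert hσ
  have hrd : ∑ i ∈ b, rd i + C.card + 1 ≤ 2 * b.card := by
    obtain ⟨b', hb'⟩ : ∃ b' : Finset (Option (Ti n A) ⊕ A), b' = insert (Sum.inl none)
      (C.image Sum.inr) := ⟨_, rfl⟩
    have h1 : b' ⊆ b := by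
      rw [hb']
      intro i hi
      rcases Finset.mem_insert.1 hi with rfl | hi
      · exact hb0
      · obtain ⟨a, ha, rfl⟩ := Finset.mem_image.1 hi
        exact hbC a ha
    have h2 : b'.card = C.card + 1 := by
      rw [hb', Finset.card_insert_of_notMem (by simp), Finset.card_image_of_injective _
        Sum.inr_injective]
    have h3 : ∑ i ∈ b', rd i = b'.card := by
      rw [Finset.card_eq_sum_ones]
      refine Finset.sum_congr rfl fun i hi => ?_
      rw [hb'] at hi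
      rcases Finset.mem_insert.1 hi with rfl | hi
      · rfl
      · obtain ⟨a, ha, rfl⟩ := Finset.mem_image.1 hi
        rfl
    have h4 : ∑ i ∈ b \ b', rd i ≤ 2 * (b \ b').card := by
      rw [mul_comm, ← smul_eq_mul, ← Finset.sum_const]
      refine Finset.sum_le_sum fun i _ => ?_
      rcases i with (_ | _) | _
      · exact one_le_two
      · exact le_rfl
      · exact one_le_two
    have h5 := Finset.sum_sdiff (f := fun i => rd i) h1
    have h6 := Finset.card_sdiff_add_card_eq_card h1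
    omega
  have hpht : 0 ≤ pht k x :=
    (hgt_nonneg _).trans (Pool.Agent.W603.CX.hgt_le_pht (k := k) x he0 he0)
  refine sum_local hx0 (Θ := ((mx dg D x (fun a => Finsupp.single e0 (dg a)) b σ).det /
        (∏ a, if Sum.inr a ∈ b then x e0 ^ dg a else eval x (F a))) ^ 2 *
        ∏ a ∈ Finset.univ.filter (fun a => a ∉ C), eval x (F a) ^ W a)
    (a := 2 * ((∑ a, dg a : ℕ) - (∑ i ∈ b, rd i : ℕ)) -
      (∑ a ∈ Finset.univ.filter (fun a => a ∉ C), W a * dg a : ℕ)) (by omega) ?_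
    (fun P => ?_) hpht
  · refine hdat.fin.subset fun P hP => ?_
    intro h0
    apply hP
    rw [h0, mul_zero]
  · have h1 := local_est2 hdat P (hco P) he0 hb0 σ hspan hcard hdet hbC hCn hW (hpat P)
    convert h1 using 3
    ring

end

end Pool.Agent.Helper53K9.AB
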