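import Pool.Agent.Helper53K9.CC.Ineq

/-!
# Derivatives of several functions at one place
-/

set_option autoImplicit false

open MvPolynomial FF Pool.Agent.W603.LV Pool.Agent.W603.PV Pool.Agent.TH145.GH
open Pool.Agent.TH145.GC

namespace Pool.Agent.Helper53K9.AB

variable {k K : Type} [Field k] [Field K] [Algebra k K] [IsAlgClosed k] [CharZero k] [IsFF k K]

/-- A derivation which preserves the local ring is, up to a multiple of the derivation with respect
to a uniformizer, compatible with the orders. -/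
theorem ge_rem (P : Place k K) {π : K} (hπ : P.ord π = 1) {δ : Derivation k K K} (hδ : δ π = 1)
    {D : Derivation ℤ K K} (hD : ∀ u, Ge P 0 u → Ge P 0 (D u)) {f : K} (hf : f ≠ 0) :
    Ge P (P.ord f) (D f - D π * δ f) := by
  have hπ0 : π ≠ 0 := by
    rintro rfl
    rw [P.ord_zero] at hπ; omega
  obtain ⟨m, hm⟩ : ∃ m : ℤ, m = P.ord f := ⟨_, rfl⟩
  obtain ⟨u, hu⟩ : ∃ u, u = f * π ^ (-m) := ⟨_, rfl⟩
  have hπm : ∀ j : ℤ, P.ord (π ^ j) = j := by
    intro j
    rw [P.ord_zpow, hπ, mul_one]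
  have hu0 : Ge P 0 u := by
    right
    rw [hu, P.ord_mul hf (zpow_ne_zero _ hπ0), hπm, hm]
    omega
  have hfu : f = u * π ^ m := by
    rw [hu, mul_assoc, ← zpow_add₀ hπ0, neg_add_cancel, zpow_zero, mul_one]
  have h1 : D (π ^ m) = m * π ^ (m - 1) * D π := by
    rw [D.leibniz_zpow π m]
    simp [mul_assoc]
  have h2 : δ (π ^ m) = m * π ^ (m - 1) := by
    rw [δ.leibniz_zpow π m, hδ]
    simp
  have h3 : D f - D π * δ f = π ^ m * (D u - D π * δ u) := by
    conv_lhs => rw [hfu, D.leibniz, δ.leibniz, h1, h2]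
    simp only [smul_eq_mul]
    ring
  rw [h3, ← hm]
  have h4 : Ge P m (π ^ m) := Or.inr (hπm m).ge
  have h5 : Ge P 0 (D u - D π * δ u) :=
    (hD u hu0).sub (((hD π (Or.inr (by omega))).mul (der_reg P hπ δ hδ hu0)).mono (by omega))
  exact (h4.mul h5).mono (by omega)

/-- The derivatives of two functions vanishing at the same place: only one of them can have a
pole of the logarithmic derivative. -/
theorem joint (P : Place k K) {f g : K} (hf : f ≠ 0) (hg1 : 1 ≤ P.ord g)
    (hfg : P.ord g ≤ P.ord f) :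
    ∃ r : K, Ge P (P.ord f - P.ord g) r ∧ ∀ D : Derivation ℤ K K,
      (∀ u, Ge P 0 u → Ge P 0 (D u)) → Ge P (P.ord f) (D f - r * D g) := by
  have hg : g ≠ 0 := by
    rintro rfl
    rw [P.ord_zero] at hg1; omega
  obtain ⟨δ0, hδ0⟩ := exists_der (k := k) (K := K)
  have hπ := ord_unif P
  have hn := der_pi_ne_zero hδ0 P hπ
  obtain ⟨δ, hδd⟩ : ∃ δ : Derivation k K K, δ = (δ0 (unif P))⁻¹ • δ0 := ⟨_, rfl⟩
  have hδ : δ (unif P) = 1 := by
    rw [hδd]
    simp [hn]
  have hδn : δ ≠ 0 := by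
    rintro rfl
    simp at hδ
  obtain ⟨hf1, hf2⟩ := ord_der P hδn (f := f) (by omega)
  obtain ⟨hg2, hg3⟩ := ord_der P hδn (f := g) (by omega)
  have hr : P.ord (δ f / δ g) = P.ord f - P.ord g := by
    rw [P.ord_div hf1 hg2, hf2, hg3]
    ring
  refine ⟨δ f / δ g, Or.inr hr.ge, fun D hD => ?_⟩
  have h1 := ge_rem P hπ hδ hD hf
  have h2 := ge_rem P hπ hδ hD hg
  have h3 : D f - δ f / δ g * D g = (D f - D (unif P) * δ f) -
      δ f / δ g * (D g - D (unif P) * δ g) := by
    have : δ f / δ g * δ g = δ f := div_mul_cancel₀ _ hg2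
    linear_combination (-D (unif P)) * this
  rw [h3]
  have h4 : Ge P (P.ord f - P.ord g) (δ f / δ g) := Or.inr hr.ge
  exact h1.sub ((h4.mul h2).mono (by omega))

end Pool.Agent.Helper53K9.AB
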