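import Pool.Agent.Helper53K9.AB.Strata

/-!
# Abelian covers with generic branch divisors: rational points and curves
-/

set_option autoImplicit false

open MvPolynomial FF Pool.Agent.W603.LV Pool.Agent.W603.PV
open Pool.Agent.TH145.MG (DimLE)
open Pool.Agent.TH145.GC (Rt)

namespace Pool.Agent.Helper53K9.AB

/-- The equations of the cover: the point `x` is in the closed subset given by the forms of `V` and
in the hypersurfaces `F a = 0`, `a ∈ C`, and `z j ^ q j` is the product of the `F a (x) ^ ε j a`. -/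
def OnAbelianCover {K A J R : Type} [Field K] [CommRing R] [Algebra K R] [Fintype A] {n : ℕ}
    (V : Set (MvPolynomial (Fin (n + 1)) K)) (F : A → MvPolynomial (Fin (n + 1)) K)
    (ε : J → A → ℕ) (q : J → ℕ) (C : Finset A) (x : Fin (n + 1) → R) (z : J → R) : Prop :=
  (∀ f ∈ V, aeval x f = 0) ∧ (∀ a ∈ C, aeval x (F a) = 0) ∧
    ∀ j, z j ^ q j = ∏ a, aeval x (F a) ^ ε j a

/-- The hypersurface `F a = 0` is in the branch divisor of the part of the cover over the
intersection of the hypersurfaces `F b = 0`, `b ∈ C`: one of the equations in which no `F b` occurs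
has a root of `F a` that is not a form. -/
def Branch {A J : Type} (ε : J → A → ℕ) (q : J → ℕ) (C : Finset A) (a : A) : Prop :=
  a ∉ C ∧ ∃ j, (∀ b ∈ C, ε j b = 0) ∧ ¬ q j ∣ ε j a

open scoped Classical in
/-- The degree of the branch divisor of the part of the cover over the intersection of the
hypersurfaces `F b = 0`, `b ∈ C`. -/
noncomputable def branchDeg {A J : Type} [Fintype A] (d : A → ℕ) (ε : J → A → ℕ) (q : J → ℕ)
    (C : Finset A) : ℕ :=
  ∑ a ∈ Finset.univ.filter (fun a => Branch ε q C a), d a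

variable {k K : Type} [Field k] [Field K] [IsAlgClosed K] [CharZero K] [Algebra k K] {n m c : ℕ}
  {A J : Type} [Fintype A] {d : A → ℕ} {ε : J → A → ℕ} {q s : J → ℕ}

theorem cov_of (hq : ∀ j, 1 ≤ q j ∧ ∑ a, ε j a * d a = q j * s j) (C' : Finset A) (L : Finset J)
    (hL : ∀ j, j ∈ L ↔ ∀ b ∈ C', ε j b = 0) : Cov d ε q s L C' :=
  ⟨fun j _ => (hq j).1, fun j _ => (hq j).2, fun j hj => (hL j).1 hj⟩

open scoped Classical in
theorem cond_of (C' : Finset A) (L : Finset J) (hL : ∀ j, j ∈ L ↔ ∀ b ∈ C', ε j b = 0)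
    (h : 4 * m + c ≤ 2 * ∑ a ∈ C', (d a + 1) +
      ∑ a ∈ Finset.univ.filter (fun a => Branch ε q C' a), d a) :
    4 * m + c + ∑ a ∈ Finset.univ.filter (fun a => a ∉ C'), Wt ε q L a * d a ≤
      2 * (∑ a, d a + C'.card) := by
  have h1 : ∑ a ∈ Finset.univ.filter (fun a => Branch ε q C' a), d a +
      ∑ a ∈ Finset.univ.filter (fun a => a ∉ C'), Wt ε q L a * d a =
      ∑ a ∈ Finset.univ.filter (fun a => a ∉ C'), 2 * d a := by
    have h2 : ∑ a ∈ Finset.univ.filter (fun a => Branch ε q C' a), d a =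
        ∑ a ∈ Finset.univ.filter (fun a => a ∉ C'), if Branch ε q C' a then d a else 0 := by
      rw [← Finset.sum_filter, Finset.filter_filter]
      refine Finset.sum_congr ?_ fun _ _ => rfl
      ext a
      simp only [Finset.mem_filter, Finset.mem_univ, true_and]
      exact ⟨fun h => ⟨h.1, h⟩, fun h => h.2⟩
    rw [h2, ← Finset.sum_add_distrib]
    refine Finset.sum_congr rfl fun a ha => ?_
    have ha := (Finset.mem_filter.1 ha).2
    by_cases hb : Branch ε q C' a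
    · have h3 : Wt ε q L a = 1 := by
        unfold Wt
        rw [if_pos]
        obtain ⟨-, j, hj, hj'⟩ := hb
        exact ⟨j, (hL j).2 hj, hj'⟩
      rw [if_pos hb, h3]
      ring
    · have h3 : Wt ε q L a = 2 := by
        unfold Wt
        rw [if_neg]
        rintro ⟨j, hj, hj'⟩
        exact hb ⟨ha, j, (hL j).1 hj, hj'⟩
      rw [if_neg hb, h3]
      ring
  have h2 : ∑ a ∈ C', d a + ∑ a ∈ Finset.univ.filter (fun a => a ∉ C'), d a = ∑ a, d a := by
    have h3 : Finset.univ.filter (fun a => a ∉ C') = C'ᶜ := by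
      ext a
      simp
    rw [h3]
    exact Finset.sum_add_sum_compl _ _
  rw [← Finset.mul_sum] at h1
  rw [Finset.sum_add_distrib, Finset.sum_const, smul_eq_mul, mul_one] at h
  omega

open scoped Classical in
/-- Finiteness of the points of the cover. -/
theorem fin_cover2 [Fintype J] (C : Finset A) (hq : ∀ j, 1 ≤ q j ∧ ∑ a, ε j a * d a = q j * s j)
    (hd : ∀ C' : Finset A, C ⊆ C' → C'.card < m → 4 * m + 3 ≤ 2 * ∑ a ∈ C', (d a + 1) +
      ∑ a ∈ Finset.univ.filter (fun a => Branch ε q C' a), d a)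
    (V : Set (MvPolynomial (Fin (n + 1)) (algebraicClosure k K)))
    (hV : DimLE (algebraicClosure k K) V m)
    (F : A → MvPolynomial (Fin (n + 1)) K) (hF : ∀ a, (F a).IsHomogeneous (d a))
    (I0 : A → Fin (n + 1) →₀ ℕ) (h0 : ∀ a, (F a).coeff (I0 a) ≠ 0)
    (hgen : AlgebraicIndependent k fun p : Rt d I0 =>
      (F p.1).coeff p.2.1 / (F p.1).coeff (I0 p.1)) (T : Finset K) (l : Fin (n + 1)) :
    {p : (Fin (n + 1) → K) × (J → K) | p.1 l = 1 ∧
      (∀ i, p.1 i ∈ IntermediateField.adjoin (algebraicClosure k K) (T : Set K)) ∧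
      (∀ j, p.2 j ∈ IntermediateField.adjoin (algebraicClosure k K) (T : Set K)) ∧
      OnAbelianCover (map (algebraMap (algebraicClosure k K) K) '' V) F ε q C p.1 p.2}.Finite := by
  have hac : IsAlgClosed (algebraicClosure k K) := (algebraicClosure.isAlgClosure k K).isAlgClosed
  obtain ⟨L, hL⟩ : ∃ L : Finset A → Finset J, ∀ C' j, j ∈ L C' ↔ ∀ b ∈ C', ε j b = 0 :=
    ⟨fun C' => Finset.univ.filter fun j => ∀ b ∈ C', ε j b = 0, fun C' j => by simp⟩
  obtain ⟨S, hS⟩ : ∃ S : Finset A → Set (Fin (n + 1) → K), ∀ C', S C' = {x : Fin (n + 1) → K |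
      (∀ j, x j ∈ IntermediateField.adjoin (algebraicClosure k K) (T : Set K)) ∧ x l = 1 ∧
      (∀ f ∈ V, aeval x f = 0) ∧ (∀ a ∈ C', eval x (F a) = 0) ∧
      (∀ a, a ∉ C' → eval x (F a) ≠ 0) ∧ ∀ j ∈ L C',
        ∃ w ∈ IntermediateField.adjoin (algebraicClosure k K) (T : Set K),
          w ^ q j = ∏ a, eval x (F a) ^ ε j a} := ⟨_, fun _ => rfl⟩
  have h1 : ∀ C', C ⊆ C' → (S C').Finite := by
    intro C' hC'
    rw [hS]
    by_cases hm : C'.card < m
    · exact fin_points2' C' (cov_of hq C' (L C') (hL C'))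
        (cond_of C' (L C') (hL C') (hd C' hC' hm)) V hV F hF I0 h0 hgen.algebraicClosure T l
    · refine (fin0 V hV F hF I0 h0 hgen.algebraicClosure C' (by omega) l).subset ?_
      rintro x ⟨-, hxl, hxV, hxC, -⟩
      exact ⟨hxl, hxV, hxC⟩
  have h2 : (⋃ C' ∈ {C' : Finset A | C ⊆ C'}, S C').Finite :=
    (Set.toFinite _).biUnion fun C' hC' => h1 C' hC'
  have h3 : ∀ x : Fin (n + 1) → K,
      {z : J → K | ∀ j, z j ^ q j = ∏ a, eval x (F a) ^ ε j a}.Finite := by
    intro x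
    refine (Set.Finite.pi' (t := fun j => {w : K | w ^ q j = ∏ a, eval x (F a) ^ ε j a})
      fun j => ?_).subset fun z hz j => hz j
    have h4 : (Polynomial.X ^ q j - Polynomial.C (∏ a, eval x (F a) ^ ε j a) :
        Polynomial K) ≠ 0 := Polynomial.X_pow_sub_C_ne_zero (hq j).1 _
    refine (Polynomial.X ^ q j - Polynomial.C (∏ a, eval x (F a) ^ ε j a) :
      Polynomial K).roots.toFinset.finite_toSet.subset fun w hw => ?_
    have hw : w ^ q j = ∏ a, eval x (F a) ^ ε j a := hw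
    rw [Finset.mem_coe, Multiset.mem_toFinset, Polynomial.mem_roots h4, Polynomial.IsRoot.def,
      Polynomial.eval_sub, Polynomial.eval_pow, Polynomial.eval_X, Polynomial.eval_C, hw,
      sub_self]
  have h4 : (⋃ x ∈ ⋃ C' ∈ {C' : Finset A | C ⊆ C'}, S C', {p : (Fin (n + 1) → K) × (J → K) |
      p.1 = x ∧ p.2 ∈ {z : J → K | ∀ j, z j ^ q j = ∏ a, eval x (F a) ^ ε j a}}).Finite := by
    refine h2.biUnion fun x _ => ?_
    refine ((h3 x).image fun z => (x, z)).subset ?_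
    rintro ⟨x', z⟩ ⟨h5, h6⟩
    exact ⟨z, h6, Prod.ext h5.symm rfl⟩
  refine h4.subset ?_
  rintro ⟨x, z⟩ ⟨hxl, hxT, hzT, hxV, hxC, hxz⟩
  have hxz : ∀ j, z j ^ q j = ∏ a, eval x (F a) ^ ε j a := fun j => by
    refine (hxz j).trans (Finset.prod_congr rfl fun a _ => ?_)
    rw [aeval_eq_eval]
  have hxC : ∀ a ∈ C, eval x (F a) = 0 := fun a ha => by
    have := hxC a ha
    rwa [aeval_eq_eval] at this
  refine Set.mem_biUnion (x := x) (Set.mem_biUnion
    (x := Finset.univ.filter fun a => eval x (F a) = 0) ?_ ?_) ⟨rfl, hxz⟩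
  · intro a ha
    exact Finset.mem_filter.2 ⟨Finset.mem_univ _, hxC a ha⟩
  · rw [hS]
    refine ⟨hxT, hxl, fun f hf => ?_, fun a ha => (Finset.mem_filter.1 ha).2, fun a ha h => ?_,
      fun j _ => ⟨z j, hzT j, hxz j⟩⟩
    · have := hxV _ ⟨f, hf, rfl⟩
      rwa [aeval_map_algebraMap] at this
    · exact ha (Finset.mem_filter.2 ⟨Finset.mem_univ _, h⟩)

open scoped Classical in
/-- The number of the places with a zero of one of the forms. -/
theorem ncard_le2 {Λ : Type} [Field Λ] [Algebra K Λ] [IsFF K Λ]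
    (F : A → MvPolynomial (Fin (n + 1)) K) (hF : ∀ a, (F a).IsHomogeneous (d a))
    {x : Fin (n + 1) → Λ} (hx0 : x ≠ 0) {z : J → Λ} (C' : Finset A) {L : Finset J}
    (hcov : Cov d ε q s L C')
    (hz : ∀ j ∈ L, z j ^ q j = ∏ a, aeval x (F a) ^ ε j a) (hn : ∀ a, a ∉ C' → aeval x (F a) ≠ 0) :
    2 * (({P : Place K Λ | ∃ a, a ∉ C' ∧ d a * pord P x < P.ord (aeval x (F a))}.ncard : ℕ) : ℤ) ≤
      (∑ a ∈ Finset.univ.filter (fun a => a ∉ C'), Wt ε q L a * d a : ℕ) * pht K x := by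
  obtain ⟨U, hU⟩ : ∃ U : Finset A, U = Finset.univ.filter (fun a => a ∉ C') := ⟨_, rfl⟩
  have hmU : ∀ a, a ∈ U ↔ a ∉ C' := fun a => by rw [hU, Finset.mem_filter]; simp
  have hord : ∀ (P : Place K Λ) a, a ∉ C' → 0 ≤ P.ord (aeval x (F a)) - d a * pord P x := by
    intro P a ha
    have h1 := ge_form P x (hF a) fun α _ => Ge.const (P := P) ((F a).coeff α)
    have h2 := h1.resolve_left (hn a ha)
    linarith
  have hp := pord_finite (k := K) (Function.ne_iff.1 hx0)
  obtain ⟨T, hT⟩ := exists_supp (k := K) U (fun a => aeval x (F a))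
  obtain ⟨W, hW⟩ : ∃ W : Finset (Place K Λ), W = T ∪ hp.toFinset := ⟨_, rfl⟩
  have h1 : ∀ a, a ∈ U → ∑ P ∈ W, P.ord (aeval x (F a)) = 0 := fun a ha =>
    sum_ord_finset _ _ fun P hP => by
      rw [hW]
      exact Finset.mem_union_left _ (hT a ha P hP)
  have h2 : pht K x = - ∑ P ∈ W, pord P x := by
    unfold pht
    rw [finsum_eq_sum_of_support_subset (s := W)]
    intro P hP
    rw [hW]
    exact Finset.mem_union_right _ (hp.mem_toFinset.2 hP)
  have h3 : ∑ P ∈ W, ∑ a ∈ U, (Wt ε q L a : ℤ) * (P.ord (aeval x (F a)) - d a * pord P x) =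
      (∑ a ∈ U, Wt ε q L a * d a : ℕ) * pht K x := by
    rw [Finset.sum_comm, h2]
    have h4 : ∀ a ∈ U, ∑ P ∈ W, (Wt ε q L a : ℤ) * (P.ord (aeval x (F a)) - d a * pord P x) =
        ((Wt ε q L a * d a : ℕ) : ℤ) * -∑ P ∈ W, pord P x := fun a ha => by
      rw [← Finset.mul_sum, Finset.sum_sub_distrib, h1 a ha, ← Finset.mul_sum]
      push_cast
      ring
    rw [Finset.sum_congr rfl h4, ← Finset.sum_mul]
    push_cast
    rfl
  rw [← hU, ← h3]
  have h4 : {P : Place K Λ | ∃ a, a ∉ C' ∧ d a * pord P x < P.ord (aeval x (F a))} ⊆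
      (W.filter fun P => ∃ a, a ∉ C' ∧ d a * pord P x < P.ord (aeval x (F a)) :
        Finset (Place K Λ)) := by
    rintro P ⟨a, ha, hP⟩
    rw [Finset.mem_coe, Finset.mem_filter]
    refine ⟨?_, a, ha, hP⟩
    by_contra hcon
    rw [hW, Finset.mem_union, not_or] at hcon
    have h5 : pord P x = 0 := by
      by_contra h
      exact hcon.2 (hp.mem_toFinset.2 h)
    have h6 : P.ord (aeval x (F a)) = 0 := by
      by_contra h
      exact hcon.1 (hT a ((hmU a).2 ha) P h)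
    rw [h5, h6] at hP
    simp at hP
  have h5 := Set.ncard_le_ncard h4 (Finset.finite_toSet _)
  rw [Set.ncard_coe_finset] at h5
  have h6 : (2 : ℤ) * (({P : Place K Λ | ∃ a, a ∉ C' ∧ d a * pord P x <
      P.ord (aeval x (F a))}.ncard : ℕ) : ℤ) ≤
      2 * ((W.filter fun P => ∃ a, a ∉ C' ∧ d a * pord P x < P.ord (aeval x (F a))).card : ℤ) := by
    have h7 := Int.ofNat_le.2 h5
    linarith
  refine h6.trans ?_
  rw [Finset.card_eq_sum_ones, Finset.sum_filter]
  push_cast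
  rw [Finset.mul_sum]
  refine Finset.sum_le_sum fun P _ => ?_
  split_ifs with h
  · obtain ⟨a, ha, hP⟩ := h
    have h7 := hcov.pat P hn hz (pord P x) (fun a ha => hord P a ha) ⟨a, ha, by linarith⟩
    rw [← hU] at h7
    linarith
  · rw [mul_zero]
    exact Finset.sum_nonneg fun a ha => mul_nonneg (by positivity) (hord P a ((hmU a).1 ha))

open scoped Classical in
/-- The degree inequality for curves in the cover. -/
theorem curve_cover2 [Fintype J] (C : Finset A) (hq : ∀ j, 1 ≤ q j ∧ ∑ a, ε j a * d a = q j * s j)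
    (hd : ∀ C' : Finset A, C ⊆ C' → C'.card < m → 4 * m + c ≤ 2 * ∑ a ∈ C', (d a + 1) +
      ∑ a ∈ Finset.univ.filter (fun a => Branch ε q C' a), d a)
    (V : Set (MvPolynomial (Fin (n + 1)) (algebraicClosure k K)))
    (hVh : ∀ f ∈ V, ∃ e, f.IsHomogeneous e) (hV : DimLE (algebraicClosure k K) V m)
    (F : A → MvPolynomial (Fin (n + 1)) K) (hF : ∀ a, (F a).IsHomogeneous (d a))
    (I0 : A → Fin (n + 1) →₀ ℕ) (h0 : ∀ a, (F a).coeff (I0 a) ≠ 0)
    (hgen : AlgebraicIndependent k fun p : Rt d I0 =>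
      (F p.1).coeff p.2.1 / (F p.1).coeff (I0 p.1))
    {Λ : Type} [Field Λ] [Algebra K Λ] [IsFF K Λ] (x : Fin (n + 1) → Λ) (z : J → Λ)
    (hx : ∃ i j, x j ≠ 0 ∧ x i / x j ∉ Set.range (algebraMap K Λ))
    (h : OnAbelianCover (map (algebraMap (algebraicClosure k K) K) '' V) F ε q C x z) :
    (c : ℤ) * pht K x ≤ 2 * canDeg K Λ := by
  obtain ⟨hxV, hxC, hxz⟩ := h
  have hac : IsAlgClosed (algebraicClosure k K) := (algebraicClosure.isAlgClosure k K).isAlgClosed
  obtain ⟨C', hC'⟩ : ∃ C' : Finset A, C' = Finset.univ.filter fun a => aeval x (F a) = 0 :=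
    ⟨_, rfl⟩
  have hm : ∀ a, a ∈ C' ↔ aeval x (F a) = 0 := fun a => by rw [hC', Finset.mem_filter]; simp
  have hCC : C ⊆ C' := fun a ha => (hm a).2 (hxC a ha)
  have hx0 : x ≠ 0 := by
    obtain ⟨i, j, hj, -⟩ := hx
    intro h
    exact hj (congrFun h j)
  have hpht : 0 ≤ pht K x := by
    obtain ⟨j, hj⟩ := Function.ne_iff.1 hx0
    exact (hgt_nonneg _).trans (Pool.Agent.W603.CX.hgt_le_pht (k := K) x hj hj)
  -- the number of the forms which vanish
  have hcard : C'.card + 1 ≤ m := by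
    obtain ⟨i, j, hj, hij⟩ := hx
    obtain ⟨x', hx'⟩ : ∃ x' : Fin (n + 1) → Λ, x' = (x j)⁻¹ • x := ⟨_, rfl⟩
    have hVx : ∀ f ∈ V, eval₂ ((algebraMap K Λ).comp (algebraMap (algebraicClosure k K) K)) x' f =
        0 := by
      intro f hf
      have h3 : aeval x (map (algebraMap (algebraicClosure k K) K) f) = 0 := hxV _ ⟨f, hf, rfl⟩
      obtain ⟨e, he⟩ := hVh f hf
      have h4 : aeval x' (map (algebraMap (algebraicClosure k K) K) f) = 0 := by
        rw [hx', Pool.Agent.TH145.MG.aeval_smul (he.map _), h3, mul_zero]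
      rw [← eval₂_map]
      exact h4
    refine card_lt V hV F hF I0 h0 hgen.algebraicClosure C' x' (c0 := j) ?_ ⟨i, ?_⟩ hVx
      fun a ha => ?_
    · rw [hx', Pi.smul_apply, smul_eq_mul, inv_mul_cancel₀ hj]
    · rw [hx', Pi.smul_apply, smul_eq_mul, mul_comm, ← div_eq_mul_inv]
      exact hij
    · rw [hx', Pool.Agent.TH145.MG.aeval_smul (hF a), (hm a).1 ha, mul_zero]
  obtain ⟨L, hL⟩ : ∃ L : Finset J, ∀ j, j ∈ L ↔ ∀ b ∈ C', ε j b = 0 :=
    ⟨Finset.univ.filter fun j => ∀ b ∈ C', ε j b = 0, fun j => by simp⟩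
  have hcond := cond_of C' L hL (hd C' hCC (by omega))
  have h1 := Pool.Agent.TH145.GE.curve_generic V hVh hV F hF I0 h0 hgen.algebraicClosure C' x hx
    (fun f hf => hxV _ ⟨f, hf, rfl⟩) (fun a ha => (hm a).1 ha) (fun a ha h => ha ((hm a).2 h))
  have h2 := ncard_le2 F hF hx0 (z := z) C' (cov_of hq C' L hL) (fun j _ => hxz j)
    (fun a ha h => ha ((hm a).2 h))
  obtain ⟨Q, hQ⟩ : ∃ Q : ℕ, Q = ∑ a ∈ Finset.univ.filter (fun a => a ∉ C'), Wt ε q L a * d a :=
    ⟨_, rfl⟩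
  rw [← hQ] at hcond h2
  have h3 : (c : ℤ) * pht K x ≤
      (2 * ((∑ a, d a : ℕ) + C'.card - 2 * m) - Q) * pht K x := by
    refine mul_le_mul_of_nonneg_right ?_ hpht
    have h4 : ((4 * m + c + Q : ℕ) : ℤ) ≤ ((2 * (∑ a, d a + C'.card) : ℕ) : ℤ) :=
      Int.ofNat_le.2 hcond
    push_cast at h4 ⊢
    linarith
  have h4 : (2 * ((∑ a, d a : ℕ) + C'.card - 2 * m) - Q) * pht K x =
      2 * (((∑ a, d a : ℕ) + C'.card - 2 * m) * pht K x) - Q * pht K x := by ring
  rw [h4] at h3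
  linarith

end Pool.Agent.Helper53K9.AB
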