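import Pool.Agent.Helper53K9.AB.Ineq

/-!
# The multiplicities of the branch divisors along a curve in an abelian cover
-/

set_option autoImplicit false

open MvPolynomial FF Pool.Agent.W603.LV Pool.Agent.W603.PV Pool.Agent.TH145.GH
open Pool.Agent.TH145.GC

namespace Pool.Agent.Helper53K9.AB

/-- The numerical data of an abelian cover: the equations `z_j ^ q_j = ∏ F_a ^ (ε j a)`, for `j` in
`L`, in which the forms `F_a`, `a ∈ C`, do not occur. -/
structure Cov {A J : Type} [Fintype A] (dg : A → ℕ) (ε : J → A → ℕ) (q s : J → ℕ) (L : Finset J)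
    (C : Finset A) : Prop where
  pos : ∀ j ∈ L, 1 ≤ q j
  deg : ∀ j ∈ L, ∑ a, ε j a * dg a = q j * s j
  live : ∀ j ∈ L, ∀ a ∈ C, ε j a = 0

open scoped Classical in
/-- The weight is one for the branch divisors and two for the others. -/
noncomputable def Wt {A J : Type} (ε : J → A → ℕ) (q : J → ℕ) (L : Finset J) (a : A) : ℕ :=
  if ∃ j ∈ L, ¬ q j ∣ ε j a then 1 else 2

theorem Wt_le {A J : Type} (ε : J → A → ℕ) (q : J → ℕ) (L : Finset J) (a : A) :
    Wt ε q L a ≤ 2 := by
  unfold Wt; split_ifs <;> omega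

theorem Wt_pos {A J : Type} (ε : J → A → ℕ) (q : J → ℕ) (L : Finset J) (a : A) :
    1 ≤ Wt ε q L a := by
  unfold Wt; split_ifs <;> omega

variable {A J : Type} [Fintype A] {dg : A → ℕ} {ε : J → A → ℕ} {q s : J → ℕ} {L : Finset J}
  {C : Finset A}

open scoped Classical in
theorem Cov.prod_eq (h : Cov dg ε q s L C) {R : Type} [CommRing R] (f : A → R) {j : J}
    (hj : j ∈ L) : ∏ a, f a ^ ε j a = ∏ a ∈ Finset.univ.filter (fun a => a ∉ C), f a ^ ε j a := by
  symm
  refine Finset.prod_subset (Finset.filter_subset _ _) fun a _ ha => ?_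
  have h1 : a ∈ C := by
    by_contra hcon
    exact ha (Finset.mem_filter.2 ⟨Finset.mem_univ _, hcon⟩)
  rw [h.live j hj a h1, pow_zero]

open scoped Classical in
theorem Cov.sum_eq (h : Cov dg ε q s L C) {j : J}
    (hj : j ∈ L) : ∑ a ∈ Finset.univ.filter (fun a => a ∉ C), ε j a * dg a = q j * s j := by
  rw [← h.deg j hj]
  refine Finset.sum_subset (Finset.filter_subset _ _) fun a _ ha => ?_
  have h1 : a ∈ C := by
    by_contra hcon
    exact ha (Finset.mem_filter.2 ⟨Finset.mem_univ _, hcon⟩)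
  rw [h.live j hj a h1, zero_mul]

variable {k K : Type} [Field k] [Field K] [Algebra k K]

open scoped Classical in
/-- The congruences for the multiplicities. -/
theorem Cov.ord_eq (h : Cov dg ε q s L C) (P : Place k K) {f : A → K}
    (hf : ∀ a, a ∉ C → f a ≠ 0) {w : J → K} {j : J} (hj : j ∈ L)
    (hw : w j ^ q j = ∏ a, f a ^ ε j a) (t : ℤ) :
    (q j : ℤ) * (P.ord (w j) - s j * t) =
      ∑ a ∈ Finset.univ.filter (fun a => a ∉ C), (ε j a : ℤ) * (P.ord (f a) - dg a * t) := by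
  rw [h.prod_eq f hj] at hw
  have h1 := congrArg P.ord hw
  rw [P.ord_pow, ord_prod P _ _ fun a ha => pow_ne_zero _ (hf a (Finset.mem_filter.1 ha).2)] at h1
  have h2 := h.sum_eq hj
  have h3 : (((q j * s j : ℕ) : ℤ)) = ∑ a ∈ Finset.univ.filter (fun a => a ∉ C),
      (ε j a : ℤ) * dg a := by
    rw [← h2]
    push_cast
    rfl
  have h4 : ∑ a ∈ Finset.univ.filter (fun a => a ∉ C), (ε j a : ℤ) * (P.ord (f a) - dg a * t) =
      ∑ a ∈ Finset.univ.filter (fun a => a ∉ C), P.ord (f a ^ ε j a) -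
      (∑ a ∈ Finset.univ.filter (fun a => a ∉ C), (ε j a : ℤ) * dg a) * t := by
    rw [Finset.sum_mul, ← Finset.sum_sub_distrib]
    refine Finset.sum_congr rfl fun a _ => ?_
    rw [P.ord_pow]
    ring
  rw [h4, ← h1, ← h3]
  push_cast
  ring

open scoped Classical in
/-- The weighted multiplicity is at least two at every point of the branch divisor. -/
theorem Cov.pat (h : Cov dg ε q s L C) (P : Place k K) {f : A → K}
    (hf : ∀ a, a ∉ C → f a ≠ 0) {w : J → K}
    (hw : ∀ j ∈ L, w j ^ q j = ∏ a, f a ^ ε j a) (t : ℤ)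
    (h0 : ∀ a, a ∉ C → 0 ≤ P.ord (f a) - dg a * t)
    (h1 : ∃ a, a ∉ C ∧ 0 < P.ord (f a) - dg a * t) :
    2 ≤ ∑ a ∈ Finset.univ.filter (fun a => a ∉ C),
        (Wt ε q L a : ℤ) * (P.ord (f a) - dg a * t) := by
  obtain ⟨a, ha, hpos⟩ := h1
  have hmem : a ∈ Finset.univ.filter (fun a => a ∉ C) :=
    Finset.mem_filter.2 ⟨Finset.mem_univ _, ha⟩
  have hW : ∀ c, (1 : ℤ) ≤ Wt ε q L c := fun c => by exact_mod_cast Wt_pos ε q L c
  have hnn : ∀ c ∈ Finset.univ.filter (fun a => a ∉ C),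
      0 ≤ (Wt ε q L c : ℤ) * (P.ord (f c) - dg c * t) := fun c hc =>
    mul_nonneg (by positivity) (h0 c (Finset.mem_filter.1 hc).2)
  rw [← Finset.add_sum_erase _ _ hmem]
  have hnn' : 0 ≤ ∑ c ∈ (Finset.univ.filter (fun a => a ∉ C)).erase a,
      (Wt ε q L c : ℤ) * (P.ord (f c) - dg c * t) :=
    Finset.sum_nonneg fun c hc => hnn c (Finset.mem_of_mem_erase hc)
  by_cases hc : ∃ c ∈ (Finset.univ.filter (fun a => a ∉ C)).erase a,
      0 < P.ord (f c) - dg c * t
  · obtain ⟨c, hc, hcp⟩ := hc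
    have h2 := Finset.single_le_sum (f := fun c => (Wt ε q L c : ℤ) * (P.ord (f c) - dg c * t))
      (fun c hc => hnn c (Finset.mem_of_mem_erase hc)) hc
    have h3 : 1 ≤ (Wt ε q L c : ℤ) * (P.ord (f c) - dg c * t) := by
      have := hW c
      nlinarith
    have h4 : 1 ≤ (Wt ε q L a : ℤ) * (P.ord (f a) - dg a * t) := by
      have := hW a
      nlinarith
    linarith
  · push Not at hc
    by_cases h2 : 2 ≤ P.ord (f a) - dg a * t
    · have h4 : 2 ≤ (Wt ε q L a : ℤ) * (P.ord (f a) - dg a * t) := by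
        have := hW a
        nlinarith
      linarith
    have h3 : P.ord (f a) - dg a * t = 1 := by omega
    by_cases h5 : ∃ j ∈ L, ¬ q j ∣ ε j a
    · obtain ⟨j, hj, hdiv⟩ := h5
      exfalso
      apply hdiv
      have h6 := h.ord_eq P hf hj (hw j hj) t
      rw [← Finset.add_sum_erase _ _ hmem, h3, mul_one, Finset.sum_eq_zero (fun c hcc => by
        have h7 := hc c hcc
        have h8 := h0 c (Finset.mem_filter.1 (Finset.mem_of_mem_erase hcc)).2
        have h9 : P.ord (f c) - dg c * t = 0 := by omega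
        rw [h9, mul_zero]), add_zero] at h6
      have h7 : (q j : ℤ) ∣ ε j a := ⟨_, h6.symm⟩
      exact_mod_cast h7
    · have h6 : Wt ε q L a = 2 := by unfold Wt; rw [if_neg h5]
      rw [h3, h6]
      push_cast
      linarith

end Pool.Agent.Helper53K9.AB
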