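import Pool.Agent.Helper53K9.AB.Fin
import Pool.Agent.TH145.GE.CurveMain

/-!
# The number of the generic forms which vanish at a point
-/

set_option autoImplicit false

open MvPolynomial FF Pool.Agent.W603.LV Pool.Agent.W603.PV Pool.Agent.W602.RG
open Pool.Agent.W602.GT (coords)
open Pool.Agent.TH145.GH
open Pool.Agent.TH145.MG (DimLE cl mem_cl subset_cl card_le exists_basis)
open Pool.Agent.TH145.GC (Rt)

namespace Pool.Agent.Helper53K9.AB

theorem cl_mono {k Ω : Type} [Field k] [Field Ω] [Algebra k Ω] {S T : Set Ω} (h : S ⊆ T) {x : Ω}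
    (hx : x ∈ cl k S) : x ∈ cl k T := by
  rw [Pool.Agent.TH145.MG.mem_cl_iff] at hx ⊢
  exact Matroid.closure_subset_closure _ h hx

/-- The number of the forms which vanish at a point. -/
theorem card_strata {k0 L β : Type} [Field k0] [Field L] [Algebra k0 L] [Finite β] {n m : ℕ}
    {A : Type} [Finite A] {dg : A → ℕ} {H : A → MvPolynomial (Fin (n + 1)) L}
    (I0 : A → Fin (n + 1) →₀ ℕ) (hH : ∀ a, (H a).IsHomogeneous (dg a))
    (h1 : ∀ a, (H a).coeff (I0 a) = 1) {x : Fin (n + 1) → L} {c0 : Fin (n + 1)} (hx1 : x c0 = 1)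
    (hx : Algebra.trdeg k0 (coords k0 x) ≤ m) (z : β → L) (hz : ∀ b, ∃ i, z b = x i)
    (hind : AlgebraicIndependent k0 (Sum.elim z fun p : Rt dg I0 => (H p.1).coeff p.2.1))
    (C : Finset A) (hC : ∀ a ∈ C, eval x (H a) = 0) : C.card + Nat.card β ≤ m := by
  classical
  obtain ⟨I, hI, hIx⟩ := exists_basis x c0 hx1 hx
  have hfr : Finite (Rt dg I0) := Pool.Agent.TH145.GE.finite_rt dg I0
  have hev : ∀ a, eval x (H a) = ∑ u ∈ (H a).support, (H a).coeff u * mon x u := by
    intro a
    rw [eval_eq']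
    rfl
  -- a monomial which is not zero at the point
  have key : ∀ a : C, ∃ u : {I : Fin (n + 1) →₀ ℕ // I.degree = dg a ∧ I ≠ I0 a},
      mon x u.1 ≠ 0 := by
    rintro ⟨a, ha⟩
    by_cases h2 : Finsupp.single c0 (dg a) = I0 a
    · have h3 : I0 a ∈ (H a).support := mem_support_iff.2 (by rw [h1]; exact one_ne_zero)
      have h4 := hev a
      rw [hC a ha, ← Finset.add_sum_erase _ _ h3, h1, one_mul, ← h2, mon_single, hx1,
        one_pow] at h4
      have h5 : ∃ u ∈ (H a).support.erase (Finsupp.single c0 (dg a)),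
          (H a).coeff u * mon x u ≠ 0 := by
        by_contra hcon
        push Not at hcon
        rw [Finset.sum_eq_zero hcon, add_zero] at h4
        exact zero_ne_one h4
      obtain ⟨u, hu, hu0⟩ := h5
      refine ⟨⟨u, deg_of_mem (hH a) (Finset.mem_of_mem_erase hu), fun h => ?_⟩,
        right_ne_zero_of_mul hu0⟩
      exact Finset.ne_of_mem_erase hu (h.trans h2.symm)
    · refine ⟨⟨Finsupp.single c0 (dg a), Finsupp.degree_single _ _, h2⟩, ?_⟩
      dsimp only
      rw [mon_single, hx1, one_pow]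
      exact one_ne_zero
  choose u hu using key
  obtain ⟨g, hg⟩ : ∃ g : I ⊕ {p : Rt dg I0 // ∀ a : C, p ≠ ⟨a, u a⟩} → L, g =
    Sum.elim (fun i : I => x i) (fun p : {p : Rt dg I0 // ∀ a : C, p ≠ ⟨a, u a⟩} =>
      (H p.1.1).coeff p.1.2.1) := ⟨_, rfl⟩
  have hxg : ∀ i, x i ∈ cl k0 (Set.range g) := by
    intro i
    refine cl_mono ?_ (hIx i)
    rintro _ ⟨j, hj, rfl⟩
    exact ⟨Sum.inl ⟨j, hj⟩, by rw [hg]; rfl⟩
  have hmon : ∀ v, mon x v ∈ cl k0 (Set.range g) := fun v =>
    prod_mem fun i _ => pow_mem (hxg i) _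
  have hco : ∀ a : C, ∀ v, v ≠ (u a).1 → (H a).coeff v ∈ cl k0 (Set.range g) := by
    intro a v hv
    by_cases hvd : v.degree = dg a
    · by_cases hv0 : v = I0 a
      · rw [hv0, h1]
        exact one_mem _
      · refine subset_cl ⟨Sum.inr ⟨⟨a, ⟨v, hvd, hv0⟩⟩, fun b hb => hv ?_⟩, by rw [hg]; rfl⟩
        have h3 : (a : A) = b := congrArg Sigma.fst hb
        have h4 : a = b := Subtype.ext h3
        subst h4
        have h5 := eq_of_heq (Sigma.mk.inj_iff.1 hb).2
        exact congrArg Subtype.val h5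
    · have h3 : (H a).coeff v = 0 := by
        by_contra hne
        exact hvd (deg_of_mem (hH a) (mem_support_iff.2 hne))
      rw [h3]
      exact zero_mem _
  have hcu : ∀ a : C, (H a).coeff (u a).1 ∈ cl k0 (Set.range g) := by
    intro a
    have h3 := hev a
    rw [hC a a.2] at h3
    have h4 : ∑ v ∈ (H a).support, (H a).coeff v * mon x v =
        ∑ v ∈ insert (u a).1 (H a).support, (H a).coeff v * mon x v := by
      refine Finset.sum_subset (Finset.subset_insert _ _) fun v _ hv => ?_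
      rw [notMem_support_iff.1 hv, zero_mul]
    rw [h4, ← Finset.add_sum_erase _ _ (Finset.mem_insert_self _ _)] at h3
    have h5 : (H a).coeff (u a).1 = -(∑ v ∈ (insert (u a).1 (H a).support).erase (u a).1,
        (H a).coeff v * mon x v) / mon x (u a).1 := by
      rw [eq_div_iff (hu a)]
      linear_combination -h3
    rw [h5]
    refine div_mem (neg_mem (sum_mem fun v hv => mul_mem (hco a v ?_) (hmon v))) (hmon _)
    exact Finset.ne_of_mem_erase hv
  have h2 := card_le _ hind g (by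
    rintro (b | p)
    · obtain ⟨i, hi⟩ := hz b
      rw [Sum.elim_inl, hi]
      exact hxg i
    · rw [Sum.elim_inr]
      by_cases hp : ∀ a : C, p ≠ ⟨a, u a⟩
      · exact subset_cl ⟨Sum.inr ⟨p, hp⟩, by rw [hg]; rfl⟩
      · push Not at hp
        obtain ⟨a, rfl⟩ := hp
        exact hcu a)
  rw [Nat.card_sum, Nat.card_sum] at h2
  have h3 : Nat.card ({p : Rt dg I0 // ∀ a : C, p ≠ ⟨a, u a⟩} ⊕ C) ≤ Nat.card (Rt dg I0) := by
    refine Nat.card_le_card_of_injective
      (Sum.elim (fun p => p.1) fun a : C => (⟨a, u a⟩ : Rt dg I0)) ?_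
    rintro (p | a) (p' | a') h
    · exact congrArg Sum.inl (Subtype.ext h)
    · exact absurd h (p.2 a')
    · exact absurd h.symm (p'.2 a)
    · have h3 : (a : A) = a' := congrArg Sigma.fst h
      exact congrArg Sum.inr (Subtype.ext h3)
  rw [Nat.card_sum] at h3
  have h4 : Nat.card C = C.card := by rw [Nat.card_eq_fintype_card, Fintype.card_coe]
  have h5 : Nat.card I = I.card := by rw [Nat.card_eq_fintype_card, Fintype.card_coe]
  omega

/-- A nonconstant point lies on fewer than `m` of the forms. -/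
theorem card_lt {k0 k L : Type} [Field k0] [Field k] [Field L] [Algebra k0 k] [Algebra k L]
    [IsAlgClosed k] {n m : ℕ} {A : Type} [Finite A] {dg : A → ℕ}
    (V : Set (MvPolynomial (Fin (n + 1)) k0))
    (hV : DimLE k0 V m) (F : A → MvPolynomial (Fin (n + 1)) k) (hF : ∀ a, (F a).IsHomogeneous (dg a))
    (I0 : A → Fin (n + 1) →₀ ℕ) (h0 : ∀ a, (F a).coeff (I0 a) ≠ 0)
    (hind : AlgebraicIndependent k0 fun p : Rt dg I0 =>
      (F p.1).coeff p.2.1 / (F p.1).coeff (I0 p.1))
    (C : Finset A) (x : Fin (n + 1) → L) {c0 : Fin (n + 1)} (hx1 : x c0 = 1)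
    (hx : ∃ i, x i ∉ Set.range (algebraMap k L))
    (hxV : ∀ f ∈ V, eval₂ ((algebraMap k L).comp (algebraMap k0 k)) x f = 0)
    (hxC : ∀ a ∈ C, aeval x (F a) = 0) : C.card + 1 ≤ m := by
  let _ : Algebra k0 L := ((algebraMap k L).comp (algebraMap k0 k)).toAlgebra
  have hst : IsScalarTower k0 k L := IsScalarTower.of_algebraMap_eq fun _ => rfl
  obtain ⟨H, hH⟩ : ∃ H : A → MvPolynomial (Fin (n + 1)) L, ∀ a, H a =
    map (algebraMap k L) (MvPolynomial.C ((F a).coeff (I0 a))⁻¹ * F a) := ⟨_, fun _ => rfl⟩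
  have hHh : ∀ a, (H a).IsHomogeneous (dg a) := fun a => by
    have := (isHomogeneous_C (Fin (n + 1)) ((F a).coeff (I0 a))⁻¹).mul (hF a)
    rw [zero_add] at this
    rw [hH]
    exact this.map _
  have hH1 : ∀ a, (H a).coeff (I0 a) = 1 := fun a => by
    rw [hH, coeff_map, coeff_C_mul, inv_mul_cancel₀ (h0 a), map_one]
  obtain ⟨i, hi⟩ := hx
  have htr : Transcendental k (x i) := by
    intro halg
    apply hi
    have h2 := IsAlgClosed.degree_eq_one_of_irreducible k (minpoly.irreducible halg.isIntegral)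
    exact minpoly.mem_range_of_degree_eq_one k (x i) h2
  have h3 : AlgebraicIndependent k (fun _ : Unit => x i) :=
    algebraicIndependent_unique_type_iff.2 htr
  have h4 := hind.sumElim_comp h3
  have h5 := card_strata (m := m) (β := Unit) I0 hHh hH1 hx1 (hV L x (by
    rintro h
    rw [h] at hx1
    exact zero_ne_one hx1) fun f hf => hxV f hf) (fun _ => x i) (fun _ => ⟨i, rfl⟩) (by
    convert h4 using 2
    funext p
    rw [hH, coeff_map, coeff_C_mul, Function.comp_apply, div_eq_mul_inv, mul_comm]) C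
    (fun a ha => by
      rw [hH, eval_map, eval₂_mul]
      have h6 : eval₂ (algebraMap k L) x (F a) = 0 := hxC a ha
      rw [h6, mul_zero])
  rw [Nat.card_unique] at h5
  exact h5

/-- The points on `m` of the forms. -/
theorem fin0 {k0 K : Type} [Field k0] [Field K] [Algebra k0 K] [IsAlgClosed K]
    {n m : ℕ} {A : Type} [Finite A] {dg : A → ℕ}
    (V : Set (MvPolynomial (Fin (n + 1)) k0)) (hV : DimLE k0 V m)
    (F : A → MvPolynomial (Fin (n + 1)) K) (hF : ∀ a, (F a).IsHomogeneous (dg a))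
    (I0 : A → Fin (n + 1) →₀ ℕ) (h0 : ∀ a, (F a).coeff (I0 a) ≠ 0)
    (hind : AlgebraicIndependent k0 fun p : Rt dg I0 =>
      (F p.1).coeff p.2.1 / (F p.1).coeff (I0 p.1)) (C : Finset A) (hC : m ≤ C.card)
    (l0 : Fin (n + 1)) :
    {x : Fin (n + 1) → K | x l0 = 1 ∧ (∀ f ∈ V, aeval x f = 0) ∧
      ∀ a ∈ C, eval x (F a) = 0}.Finite := by
  by_contra hinf
  let f := Set.Infinite.natEmbedding _ hinf
  obtain ⟨x, hx⟩ : ∃ x : ℕ → Fin (n + 1) → K, ∀ n, x n = (f n).1 := ⟨_, fun _ => rfl⟩
  have hxinj : Function.Injective x := by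
    intro a b hab
    rw [hx, hx] at hab
    exact f.injective (Subtype.ext hab)
  have hxl : ∀ n, x n l0 = 1 := fun n => by rw [hx]; exact (f n).2.1
  have hxV : ∀ n, ∀ f ∈ V, aeval (x n) f = 0 := fun n => by rw [hx]; exact (f n).2.2.1
  have hxC : ∀ n, ∀ a ∈ C, eval (x n) (F a) = 0 := fun n => by rw [hx]; exact (f n).2.2.2
  by_cases hc : ∀ j, ∃ a : K, cst K a = Om.mk fun n => x n j
  · choose a ha using hc
    refine not_all_const hxinj a fun j => ?_
    have h1 : (Om.mk fun _ => a j) = Om.mk fun n => x n j := ha j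
    rw [Om.mk_eq] at h1
    exact h1.mono fun n hn => hn.symm
  · push Not at hc
    obtain ⟨j, hj⟩ := hc
    have h1 := card_lt (k := K) (L := Om K) (m := m) V hV F hF I0 h0 hind C
      (fun j => Om.mk fun n => x n j) (c0 := l0) (by
        have h1 : (fun n => x n l0) = fun _ => 1 := funext hxl
        rw [h1]; rfl) ⟨j, by
        rintro ⟨a, ha⟩
        exact hj a ha⟩ (fun f hf => by
        have h1 := Pool.Agent.TH145.MG.eval_mk x (map (algebraMap k0 K) f)
        have h2 : (fun n => eval (x n) (map (algebraMap k0 K) f)) = fun _ => 0 := by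
          funext n
          rw [eval_map]
          exact hxV n f hf
        rw [h2] at h1
        have h3 : eval₂ (cst K) (fun j => Om.mk fun n => x n j) (map (algebraMap k0 K) f) = 0 := h1
        rwa [eval₂_map] at h3) (fun a ha => by
        have h1 := Pool.Agent.TH145.MG.eval_mk x (F a)
        have h2 : (fun n => eval (x n) (F a)) = fun _ => 0 := by
          funext n
          exact hxC n a ha
        rw [h2] at h1
        exact h1)
    omega

end Pool.Agent.Helper53K9.AB
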